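import Pool.Agent.E8helper72.ZO.Fam

/-!
# The theorems for the four families
-/

set_option autoImplicit false

namespace Pool.Agent.E8helper72.ZO

open Pool.Agent.H185.ZM Module Matrix
open scoped Manifold ContDiff

lemma ar {q : ℕ} (hq : q ≠ 0) {s δ t e : ℕ} {x y : ℤ} (h : ¬ (q : ℤ) ^ (e + 1) ∣ x * y)
    (hs : t + e + δ < s) : ¬ ((q : ℤ) ^ s ∣ (q : ℤ) ^ δ * ((q : ℤ) ^ t * x) * y) := by
  intro hd
  apply h
  have h1 : (q : ℤ) ^ (δ + t) * (q : ℤ) ^ (e + 1) ∣ (q : ℤ) ^ (δ + t) * (x * y) := by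
    rw [← pow_add]
    refine (pow_dvd_pow _ (by omega : δ + t + (e + 1) ≤ s)).trans ?_
    have h2 : (q : ℤ) ^ (δ + t) * (x * y) = (q : ℤ) ^ δ * ((q : ℤ) ^ t * x) * y := by
      rw [pow_add]
      ring
    rw [h2]
    exact hd
  exact Int.dvd_of_mul_dvd_mul_left (by positivity) h1

lemma neg_one_ne {O : Type} [Ring O] (h2 : (2 : O) ≠ 0) : (-1 : O) ≠ 1 := by
  intro h
  apply h2
  calc (2 : O) = 1 + 1 := one_add_one_eq_two.symm
    _ = 1 - -1 := by rw [sub_neg_eq_add]
    _ = 0 := by rw [h, sub_self]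

variable {E : Type} [NormedAddCommGroup E] [NormedSpace ℝ E] [FiniteDimensional ℝ E]
  {M : Type} [TopologicalSpace M] [ChartedSpace E M] [IsManifold 𝓘(ℝ, E) ∞ M]

/-- The diagonal matrices whose entries are powers of `z`. -/
def PD {O : Type} [Ring O] (z : O) (n : ℕ) : Set (Matrix (Fin n) (Fin n) O)ˣ :=
  {g | ∃ d : Fin n → ℕ, (g : Matrix (Fin n) (Fin n) O) = diagonal fun i => z ^ d i}

/-- **Finiteness of actions.** For every homomorphism `α` from `Δ` to the group of smooth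
diffeomorphisms of `M` (i) the kernel of `α` contains an element which is not central in `G` and
which is conjugate under `Γ` to an element of `S`; (ii) `α` has finite image if every normal
subgroup of `Δ` consists of central elements of `G` or has finite index in `Δ`. -/
def FiniteActions (E : Type) [NormedAddCommGroup E] [NormedSpace ℝ E] (M : Type)
    [TopologicalSpace M] [ChartedSpace E M] {G : Type} [Group G] (Γ Δ : Subgroup G)
    (S : Set G) : Prop :=
  ∀ α : Δ → (M ≃ₘ^∞⟮𝓘(ℝ, E), 𝓘(ℝ, E)⟯ M), IsHom α →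
    (∃ s ∈ S, ∃ γ ∈ Γ, ∃ h : γ⁻¹ * s * γ ∈ Δ, (∀ x, α ⟨_, h⟩ x = x) ∧
      γ⁻¹ * s * γ ∉ Subgroup.center G) ∧
    ((∀ N : Subgroup Δ, N.Normal → (∀ g ∈ N, (g : G) ∈ Subgroup.center G) ∨ Finite (Δ ⧸ N)) →
      (Set.range α).Finite)

omit [FiniteDimensional ℝ E] [IsManifold 𝓘(ℝ, E) ∞ M] in
lemma Concl.fa {G : Type} [Group G] {Γ Δ : Subgroup G} {P : Type} [Group P] {φ : P →* G}
    (h : Concl E M Γ Δ φ) {S : Set G} (hS : ∀ p, φ p ∈ S) : FiniteActions E M Γ Δ S := by
  intro α hα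
  obtain ⟨⟨p, γ, hγ, h1, h2, h3⟩, h4⟩ := h α hα
  exact ⟨⟨φ p, hS p, γ, hγ, h1, h2, h3⟩, h4⟩

lemma fin_of {G : Type} [Group G] {Γ Δ : Subgroup G} {q e : ℕ} {x : ℤ}
    (h : ¬ (q : ℤ) ^ (e + 1) ∣ x * Δ.relIndex Γ) : Finite (Γ ⧸ Δ.subgroupOf Γ) := by
  have h1 : (Δ.subgroupOf Γ).index ≠ 0 := by
    intro h2
    apply h
    have h3 : Δ.relIndex Γ = 0 := h2
    rw [h3]
    simp
  have h3 : (Δ.subgroupOf Γ).FiniteIndex := ⟨h1⟩
  exact inferInstance

lemma pw_PD {O : Type} [Ring O] {z : O} {k : ℕ} [NeZero k] (hz : z ^ k = 1) {n : ℕ}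
    (a : Fin n → Multiplicative (ZMod k)) : dg (pw z k hz) n a ∈ PD z n :=
  ⟨fun i => ((a i).toAdd).val, rfl⟩

lemma card_mz (k : ℕ) [NeZero k] : Nat.card (Multiplicative (ZMod k)) = k := by
  rw [Nat.card_congr Multiplicative.toAdd, Nat.card_zmod]

/-- the commutative case -/
theorem comm_case [CompactSpace M] [T2Space M] [ConnectedSpace M] {F : Type} [CommRing F]
    {z : F} {k n : ℕ} [NeZero k] (hz : z ^ k = 1) (ho : orderOf z = k) (hn : 1 ≤ n)
    {Γ Δ : Subgroup (Matrix (Fin n) (Fin n) F)ˣ}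
    (hΓ : ∀ a : D1 (Multiplicative (ZMod k)) n,
      dg (pw z k hz) n (a : Fin n → Multiplicative (ZMod k)) ∈ Γ) {c q e δ t s : ℕ}
    (hc : Bd (finrank ℝ E) (D1 (Multiplicative (ZMod k)) n) c) (hq : q ≠ 0) (hcq : c = q ^ t)
    (hgcd : Nat.gcd n k = q ^ δ) (hk : k ^ (n - 1) = q ^ s)
    (hdvd : ¬ (q : ℤ) ^ (e + 1) ∣ Pool.Agent.Helper381.eulerChar M * Δ.relIndex Γ)
    (hs : t + e + δ < s) : FiniteActions E M Γ Δ (PD z n) := by
  have hfi := fin_of hdvd
  refine Concl.fa (φ := (dg (pw z k hz) n).comp (D1 (Multiplicative (ZMod k)) n).subtype)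
    (core Γ Δ hfi _ hΓ hc (z := q ^ δ) ?_ ?_) (fun p => pw_PD hz _)
  · rw [← hgcd]
    have h1 := card_const (A := Multiplicative (ZMod k)) hn ((Subgroup.center _).comap
      ((dg (pw z k hz) n).comp (D1 (Multiplicative (ZMod k)) n).subtype)) (fun a ha i j => by
        have h2 : dg (pw z k hz) n (a : Fin n → Multiplicative (ZMod k)) ∈
          Subgroup.center (Matrix (Fin n) (Fin n) F)ˣ := ha
        exact pw_inj z k hz ho (const_of_center h2 i j))
    rwa [card_mz] at h1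
  · rw [card_D1 hn, card_mz, hk, hcq]
    push_cast
    exact ar hq hdvd hs

/-- orthogonal groups -/
theorem orth_case [CompactSpace M] [T2Space M] [ConnectedSpace M] {F : Type} [CommRing F]
    (h2 : (2 : F) ≠ 0) (R : Subring F) {n : ℕ} (f : Fin n → F)
    {Γ Δ : Subgroup (Matrix (Fin n) (Fin n) F)ˣ} (hΓ : SOG R f ≤ Γ) {e : ℕ}
    (hdvd : ¬ (2 : ℤ) ^ (e + 1) ∣ Pool.Agent.Helper381.eulerChar M * Δ.relIndex Γ)
    (hs : finrank ℝ E + e + Nat.gcd n 2 < n) : FiniteActions E M Γ Δ (PD (-1) n) := by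
  have hz : (-1 : F) ^ 2 = 1 := by ring
  have hne : (-1 : F) ≠ 1 := neg_one_ne h2
  have ho : orderOf (-1 : F) = 2 := orderOf_eq_prime hz hne
  have h1 : Nat.gcd n 2 ∣ 2 := Nat.gcd_dvd_right _ _
  have h3 : Nat.gcd n 2 = 1 ∨ Nat.gcd n 2 = 2 := (Nat.dvd_prime Nat.prime_two).1 h1
  have hn : 1 ≤ n := by omega
  refine comm_case hz ho hn (fun a => hΓ (dg_mem_SOG R (R.neg_mem R.one_mem) hz a))
    (c := 2 ^ finrank ℝ E) (q := 2) (e := e) (δ := Nat.gcd n 2 - 1) (t := finrank ℝ E)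
    (s := n - 1) (Bd.four fun x => ?_) two_ne_zero rfl ?_ rfl (by exact_mod_cast hdvd) (by omega)
  · apply Subtype.ext
    funext i
    have h4 : ∀ x : Multiplicative (ZMod 2), x ^ 4 = 1 := by decide
    exact h4 _
  · rcases h3 with h | h <;> rw [h] <;> rfl

/-- groups containing special unitary groups, fourth roots of unity -/
theorem four_case [CompactSpace M] [T2Space M] [ConnectedSpace M] {F : Type} [CommRing F]
    [StarRing F] (h2 : (2 : F) ≠ 0) (R : Subring F) {z : F} (hzR : z ∈ R) (hz2 : z * z = -1)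
    (hzs : star z = -z) {n : ℕ} (h : Fin n → F)
    {Γ Δ : Subgroup (Matrix (Fin n) (Fin n) F)ˣ} (hΓ : SUG R h ≤ Γ) {e δ : ℕ}
    (hdvd : ¬ (2 : ℤ) ^ (e + 1) ∣ Pool.Agent.Helper381.eulerChar M * Δ.relIndex Γ)
    (hδ : Nat.gcd n 4 = 2 ^ δ) (hs : finrank ℝ E + e + δ + 2 < 2 * n) :
    FiniteActions E M Γ Δ (PD z n) := by
  have hne : (-1 : F) ≠ 1 := neg_one_ne h2
  have hz : z ^ 4 = 1 := by
    calc z ^ 4 = (z * z) * (z * z) := by ring
      _ = 1 := by rw [hz2]; ring
  have ho : orderOf z = 4 := by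
    have h1 : orderOf z = 2 ^ (1 + 1) := by
      apply orderOf_eq_prime_pow
      · rw [pow_one, pow_two, hz2]
        exact hne
      · exact hz
    rw [h1]; rfl
  have hn : 1 ≤ n := by omega
  refine comm_case hz ho hn (fun a => hΓ (dg_mem_SUG R hzR hz (by rw [hzs, neg_mul, hz2, neg_neg])
    a)) (c := 2 ^ finrank ℝ E) (q := 2) (e := e) (δ := δ) (t := finrank ℝ E)
    (s := 2 * (n - 1)) (Bd.four fun x => ?_) two_ne_zero rfl hδ ?_ (by exact_mod_cast hdvd)
    (by omega)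
  · apply Subtype.ext
    funext i
    have h4 : ∀ x : Multiplicative (ZMod 4), x ^ 4 = 1 := by decide
    exact h4 _
  · rw [show (4 : ℕ) = 2 ^ 2 by rfl, ← pow_mul]

/-- groups containing special unitary groups, roots of unity of odd prime order -/
theorem odd_case [CompactSpace M] [T2Space M] [ConnectedSpace M] {F : Type} [CommRing F]
    [StarRing F] (R : Subring F) {p : ℕ} (hp : p.Prime) (hp2 : p ≠ 2) {z : F} (hzR : z ∈ R)
    (hz : z ^ p = 1) (hz1 : z ≠ 1) (hzs : star z * z = 1) {n : ℕ} (h : Fin n → F)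
    {Γ Δ : Subgroup (Matrix (Fin n) (Fin n) F)ˣ} (hΓ : SUG R h ≤ Γ) {e δ : ℕ}
    (hdvd : ¬ (p : ℤ) ^ (e + 1) ∣ Pool.Agent.Helper381.eulerChar M * Δ.relIndex Γ)
    (hδ : Nat.gcd n p = p ^ δ) (hs : finrank ℝ E / 2 + e + δ + 1 < n) :
    FiniteActions E M Γ Δ (PD z n) := by
  have : NeZero p := ⟨hp.ne_zero⟩
  have : Fact p.Prime := ⟨hp⟩
  have ho : orderOf z = p := orderOf_eq_prime hz hz1
  have hn : 1 ≤ n := by omega
  refine comm_case hz ho hn (fun a => hΓ (dg_mem_SUG R hzR hz hzs a))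
    (c := p ^ (finrank ℝ E / 2)) (q := p) (e := e) (δ := δ) (t := finrank ℝ E / 2)
    (s := n - 1) (Bd.odd p hp hp2 fun x => ?_) hp.ne_zero rfl hδ rfl hdvd (by omega)
  apply Subtype.ext
  funext i
  have h4 : ∀ x : Multiplicative (ZMod p), x ^ p = 1 := by
    intro x
    have h5 : x ^ Nat.card (Multiplicative (ZMod p)) = 1 := pow_card_eq_one'
    rwa [card_mz] at h5
  exact h4 _

/-- groups containing the unitary group of a diagonal skew-hermitian form -/
theorem quat_case [CompactSpace M] [T2Space M] [ConnectedSpace M] {O : Type} [Ring O]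
    [StarRing O] (h2 : (2 : O) ≠ 0) (R : Subring O) {z : O} (hzR : z ∈ R) (hz2 : z * z = -1)
    (hzs : star z = -z) (w : Oˣ) (hw : (w : O) * z = -(z * w)) {n : ℕ} (h : Fin n → O)
    (hh : ∀ i, h i * z = z * h i) {Γ Δ : Subgroup (Matrix (Fin n) (Fin n) O)ˣ}
    (hΓ : UG R h ≤ Γ) {e : ℕ}
    (hdvd : ¬ (2 : ℤ) ^ (e + 1) ∣ Pool.Agent.Helper381.eulerChar M * Δ.relIndex Γ)
    (hs : finrank ℝ E + e + 1 < 2 * n) : FiniteActions E M Γ Δ (PD z n) := by
  have hne : (-1 : O) ≠ 1 := neg_one_ne h2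
  have hz : z ^ 4 = 1 := by
    have h3 : z ^ 4 = (z * z) * (z * z) := by
      rw [show (4 : ℕ) = 2 + 2 by rfl, pow_add, pow_two]
    rw [h3, hz2, neg_mul_neg, one_mul]
  have ho : orderOf z = 4 := by
    have h1 : orderOf z = 2 ^ (1 + 1) := by
      apply orderOf_eq_prime_pow
      · rw [pow_one, pow_two, hz2]
        exact hne
      · exact hz
    rw [h1]; rfl
  have hn : 1 ≤ n := by omega
  have hfi := fin_of (q := 2) (by exact_mod_cast hdvd)
  have h4 : ∀ x : Multiplicative (ZMod 4), x ^ 4 = 1 := by decide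
  refine Concl.fa (φ := dg (pw z 4 hz) n)
    (core Γ Δ hfi _ (fun a => hΓ (dg_mem_UG R hzR hz (fun i => ?_) a))
      (Bd.four fun x => funext fun i => h4 _) (z := 2 ^ 1) ?_ ?_) (fun p => pw_PD hz _)
  · rw [hzs, neg_mul, neg_mul, mul_assoc, hh, ← mul_assoc, hz2, neg_mul, one_mul, neg_neg]
  · let i0 : Fin n := ⟨0, by omega⟩
    let ev : ((Subgroup.center _).comap (dg (pw z 4 hz) n)) →* Multiplicative (ZMod 4) :=
      (Pi.evalMonoidHom (fun _ : Fin n => Multiplicative (ZMod 4)) i0).comp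
        ((Subgroup.center _).comap (dg (pw z 4 hz) n)).subtype
    have hcon : ∀ a : ((Subgroup.center _).comap (dg (pw z 4 hz) n)), ∀ i,
        (a : Fin n → Multiplicative (ZMod 4)) i = ev a := by
      intro a i
      exact pw_inj z 4 hz ho (const_of_center a.2 i i0)
    have hinj : Function.Injective ev := by
      intro p q hpq
      apply Subtype.ext
      funext j
      rw [hcon p j, hcon q j, hpq]
    have hsq : ∀ a : ((Subgroup.center _).comap (dg (pw z 4 hz) n)), ev a ^ 2 = 1 := by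
      intro a
      have h5 := comm_of_center a.2 i0 w
      have h6 : ∀ x : Multiplicative (ZMod 4), x ^ 2 = 1 ∨ x.toAdd.val = 1 ∨ x.toAdd.val = 3 := by
        decide
      rcases h6 (ev a) with h7 | h7 | h7
      · exact h7
      · exfalso
        have h8 : pw z 4 hz ((a : Fin n → Multiplicative (ZMod 4)) i0) = z := by
          show z ^ (ev a).toAdd.val = z
          rw [h7, pow_one]
        rw [h8, hw] at h5
        apply h2
        have h9 : (2 : O) * (z * w) = 0 := by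
          rw [two_mul]
          nth_rewrite 1 [← h5]
          exact neg_add_cancel _
        have h10 : (2 : O) * (z * w) * ((w⁻¹ : Oˣ) : O) * (-z) = 2 := by
          rw [mul_assoc (2 : O), mul_assoc z, Units.mul_inv, mul_one, mul_assoc, mul_neg, hz2,
            neg_neg, mul_one]
        rw [← h10, h9, zero_mul, zero_mul]
      · exfalso
        have h8 : pw z 4 hz ((a : Fin n → Multiplicative (ZMod 4)) i0) = -z := by
          show z ^ (ev a).toAdd.val = -z
          rw [h7, pow_succ, pow_two, hz2, neg_mul, one_mul]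
        rw [h8, mul_neg, hw, neg_mul, neg_neg] at h5
        apply h2
        have h9 : (2 : O) * (z * w) = 0 := by
          rw [two_mul]
          nth_rewrite 1 [h5]
          exact neg_add_cancel _
        have h10 : (2 : O) * (z * w) * ((w⁻¹ : Oˣ) : O) * (-z) = 2 := by
          rw [mul_assoc (2 : O), mul_assoc z, Units.mul_inv, mul_one, mul_assoc, mul_neg, hz2,
            neg_neg, mul_one]
        rw [← h10, h9, zero_mul, zero_mul]
    have hc : IsCyclic ((Subgroup.center _).comap (dg (pw z 4 hz) n)) :=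
      isCyclic_of_injective ev hinj
    rw [pow_one, ← IsCyclic.exponent_eq_card]
    apply Monoid.exponent_dvd_of_forall_pow_eq_one
    intro p
    apply hinj
    rw [map_pow, map_one, hsq]
  · have hcard : Nat.card (Fin n → Multiplicative (ZMod 4)) = 2 ^ (2 * n) := by
      rw [Nat.card_fun, card_mz]
      simp [pow_mul]
    rw [hcard]
    have h5 := ar (q := 2) two_ne_zero (s := 2 * n) (δ := 1) (t := finrank ℝ E)
      (by exact_mod_cast hdvd) (by omega : finrank ℝ E + e + 1 < 2 * n)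
    push_cast
    push_cast at h5
    exact h5

end Pool.Agent.E8helper72.ZO
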