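import Pool.Agent.H185.ZM.FI
import Pool.Agent.H185.ZM.Hom

/-!
# Actions of groups commensurable with a group containing a finite abelian group
-/

set_option autoImplicit false

namespace Pool.Agent.E8helper72.ZO

open Pool.Agent.H185.ZM Module
open scoped Manifold ContDiff

/-- The number `c` in the bounds: `2 ^ m` for groups of exponent dividing four, and
`p ^ (m / 2)` for groups of exponent an odd prime number `p`. -/
inductive Bd (m : ℕ) (P : Type) [Group P] : ℕ → Prop
  | four : (∀ x : P, x ^ 4 = 1) → Bd m P (2 ^ m)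
  | odd (p : ℕ) : p.Prime → p ≠ 2 → (∀ x : P, x ^ p = 1) → Bd m P (p ^ (m / 2))

variable {E : Type} [NormedAddCommGroup E] [NormedSpace ℝ E] [FiniteDimensional ℝ E]
  {M : Type} [TopologicalSpace M] [ChartedSpace E M] [IsManifold 𝓘(ℝ, E) ∞ M]

theorem Bd.dvd_ker [CompactSpace M] [T2Space M] [ConnectedSpace M] {P : Type} [CommGroup P]
    [Finite P] {c : ℕ} (h : Bd (finrank ℝ E) P c) {a : P → M → M} (ha : SmoothAction E a) :
    (Nat.card P : ℤ) ∣ Nat.card (actKer ha) * (c * Pool.Agent.Helper381.eulerChar M) := by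
  rcases h with h4 | ⟨p, hp, hp2, hpow⟩
  · have := abelian_dvd_ker h4 ha
    exact_mod_cast this
  · have := prime_dvd_ker hp hp2 hpow ha
    exact_mod_cast this

lemma Bd.sub {m : ℕ} {P Q : Type} [Group P] [Group Q] {c : ℕ} (h : Bd m P c) (φ : Q →* P)
    (hφ : Function.Injective φ) : Bd m Q c := by
  rcases h with h4 | ⟨p, hp, hp2, hpow⟩
  · exact Bd.four fun x => hφ (by rw [map_pow, map_one]; exact h4 _)
  · exact Bd.odd p hp hp2 fun x => hφ (by rw [map_pow, map_one]; exact hpow _)

/-- The statement for the action of a group `Δ` commensurable with a group `Γ` which contains the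
finite group `φ(P)`: the kernel of `α` contains a conjugate by an element of `Γ` of an element of
`φ(P)` which is not central; and `α` has finite image if all normal subgroups of `Δ` are central
or of finite index. -/
def Concl (E : Type) [NormedAddCommGroup E] [NormedSpace ℝ E] (M : Type) [TopologicalSpace M]
    [ChartedSpace E M] {G : Type} [Group G] (Γ Δ : Subgroup G) {P : Type} [Group P]
    (φ : P →* G) : Prop :=
  ∀ α : Δ → (M ≃ₘ^∞⟮𝓘(ℝ, E), 𝓘(ℝ, E)⟯ M), IsHom α →
    (∃ p : P, ∃ γ ∈ Γ, ∃ h : γ⁻¹ * φ p * γ ∈ Δ, (∀ x, α ⟨_, h⟩ x = x) ∧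
      γ⁻¹ * φ p * γ ∉ Subgroup.center G) ∧
    ((∀ N : Subgroup Δ, N.Normal → (∀ g ∈ N, (g : G) ∈ Subgroup.center G) ∨ Finite (Δ ⧸ N)) →
      (Set.range α).Finite)

theorem core [CompactSpace M] [T2Space M] [ConnectedSpace M] {G : Type} [Group G]
    (Γ Δ : Subgroup G) (hfi : Finite (Γ ⧸ Δ.subgroupOf Γ)) {P : Type} [CommGroup P] [Finite P]
    (φ : P →* G) (hφ : ∀ p, φ p ∈ Γ) {c z : ℕ} (hc : Bd (finrank ℝ E) P c)
    (hz : Nat.card ((Subgroup.center G).comap φ) ∣ z)
    (hdvd : ¬ ((Nat.card P : ℤ) ∣ z * (c * Pool.Agent.Helper381.eulerChar M) * Δ.relIndex Γ)) :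
    Concl E M Γ Δ φ := by
  intro α hα
  have hex : ∃ p : P, ∃ γ ∈ Γ, ∃ h : γ⁻¹ * φ p * γ ∈ Δ, (∀ x, α ⟨_, h⟩ x = x) ∧
      γ⁻¹ * φ p * γ ∉ Subgroup.center G := by
    by_contra hcon
    push Not at hcon
    apply hdvd
    let φ' : P →* Γ := φ.codRestrict Γ hφ
    have h1 := fi_dvd (Δ.subgroupOf Γ) φ' (Int.natAbs ((z : ℤ) *
        (c * Pool.Agent.Helper381.eulerChar M))) (fun γ Q hQ => by
      let ψ : Q →* Δ :=
        { toFun := fun q => ⟨(γ : G)⁻¹ * φ q * γ, hQ q q.2⟩
          map_one' := Subtype.ext (by simp)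
          map_mul' := fun x y => Subtype.ext (by simp [mul_assoc]) }
      have h2 := (hc.sub Q.subtype Q.subtype_injective).dvd_ker (hα.action.comp ψ)
      have h3 : Nat.card (actKer (hα.action.comp ψ)) ∣ Nat.card ((Subgroup.center G).comap φ) := by
        have hin : ∀ q : actKer (hα.action.comp ψ),
            ((q : Q) : P) ∈ (Subgroup.center G).comap φ := by
          intro q
          have h5 := hcon ((q : Q) : P) γ γ.2 (hQ (q : Q) (q : Q).2) q.2
          rw [Subgroup.mem_comap]
          have h6 : φ ((q : Q) : P) = (γ : G) * ((γ : G)⁻¹ * φ ((q : Q) : P) * γ) * (γ : G)⁻¹ := by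
            group
          rw [h6]
          exact Subgroup.Normal.conj_mem inferInstance _ h5 _
        let θ : actKer (hα.action.comp ψ) →* (Subgroup.center G).comap φ :=
          { toFun := fun q => ⟨((q : Q) : P), hin q⟩
            map_one' := rfl
            map_mul' := fun _ _ => rfl }
        refine Subgroup.card_dvd_of_injective θ (fun a b hab => ?_)
        have := congrArg Subtype.val hab
        exact Subtype.ext (Subtype.ext this)
      have h4 : (Nat.card (actKer (hα.action.comp ψ)) : ℤ) ∣ (z : ℤ) := by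
        exact_mod_cast h3.trans hz
      have h5 := h2.trans (mul_dvd_mul_right h4 _)
      have h6 := Int.natAbs_dvd_natAbs.2 h5
      rwa [Int.natAbs_natCast] at h6)
    have h2 : (Nat.card P : ℤ) ∣ ((Int.natAbs ((z : ℤ) *
        (c * Pool.Agent.Helper381.eulerChar M)) * (Δ.subgroupOf Γ).index : ℕ) : ℤ) :=
      Int.natCast_dvd_natCast.2 h1
    rw [Nat.cast_mul] at h2
    exact h2.trans (mul_dvd_mul_right (Int.natAbs_dvd.2 dvd_rfl) _)
  refine ⟨hex, fun hNS => hα.finite_range ?_⟩
  obtain ⟨p, γ, hγ, h, h1, h2⟩ := hex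
  rcases hNS (actKer hα.action) inferInstance with h3 | h3
  · exact absurd (h3 ⟨_, h⟩ h1) h2
  · exact h3

end Pool.Agent.E8helper72.ZO
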