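import Pool.Agent.E8helper72.ZO.Core

/-!
# Diagonal matrices whose entries are roots of unity
-/

set_option autoImplicit false

namespace Pool.Agent.E8helper72.ZO

open Pool.Agent.H185.ZM Module Matrix

section units

variable {O : Type} [Ring O]

/-- the powers of an element `z` with `z ^ k = 1` -/
def pw (z : O) (k : ℕ) [NeZero k] (hz : z ^ k = 1) : Multiplicative (ZMod k) →* O where
  toFun x := z ^ (x.toAdd).val
  map_one' := by simp
  map_mul' x y := by
    have h1 : (x * y).toAdd = x.toAdd + y.toAdd := rfl
    rw [h1, ZMod.val_add, ← pow_add]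
    conv_rhs => rw [← Nat.mod_add_div (x.toAdd.val + y.toAdd.val) k, pow_add, pow_mul, hz,
      one_pow, mul_one]

lemma pw_inj (z : O) (k : ℕ) [NeZero k] (hz : z ^ k = 1) (ho : orderOf z = k) :
    Function.Injective (pw z k hz) := by
  intro x y hxy
  have h1 : z ^ (x.toAdd).val = z ^ (y.toAdd).val := hxy
  have hu : IsUnit z := IsUnit.of_pow_eq_one hz (NeZero.ne k)
  have h2 := pow_injOn_Iio_orderOf (x := z) (by rw [ho]; exact ZMod.val_lt _)
    (by rw [ho]; exact ZMod.val_lt _) h1
  have h3 := ZMod.val_injective k h2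
  exact h3

variable {A : Type} [CommGroup A]

/-- the diagonal matrices with the entries `u (a i)` -/
def dg (u : A →* O) (n : ℕ) : (Fin n → A) →* (Matrix (Fin n) (Fin n) O)ˣ :=
  MonoidHom.toHomUnits
    { toFun := fun a => diagonal (fun i => u (a i))
      map_one' := by
        show diagonal (fun i : Fin n => u ((1 : Fin n → A) i)) = 1
        simp only [Pi.one_apply, map_one]
        exact diagonal_one
      map_mul' := fun p q => by
        show diagonal (fun i => u ((p * q) i)) = diagonal (fun i => u (p i)) *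
          diagonal (fun i => u (q i))
        rw [diagonal_mul_diagonal]
        simp only [Pi.mul_apply, map_mul] }

lemma dg_coe (u : A →* O) (n : ℕ) (a : Fin n → A) :
    ((dg u n a : (Matrix (Fin n) (Fin n) O)ˣ) : Matrix (Fin n) (Fin n) O) =
      diagonal (fun i => u (a i)) := rfl

lemma dg_inv_coe (u : A →* O) (n : ℕ) (a : Fin n → A) :
    (((dg u n a)⁻¹ : (Matrix (Fin n) (Fin n) O)ˣ) : Matrix (Fin n) (Fin n) O) =
      diagonal (fun i => u (a i)⁻¹) := by
  rw [← map_inv]
  rfl

/-- the elementary matrix `1 + E_ij` -/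
def trans {n : ℕ} {i j : Fin n} (h : i ≠ j) : (Matrix (Fin n) (Fin n) O)ˣ where
  val := 1 + single i j 1
  inv := 1 - single i j 1
  val_inv := by
    have h1 : (single i j (1 : O)) * single i j 1 = 0 := single_mul_single_of_ne _ _ _ _ h.symm _
    rw [add_mul, one_mul, mul_sub, mul_one, h1, sub_zero, sub_add_cancel]
  inv_val := by
    have h1 : (single i j (1 : O)) * single i j 1 = 0 := single_mul_single_of_ne _ _ _ _ h.symm _
    rw [sub_mul, one_mul, mul_add, mul_one, h1, add_zero, add_sub_cancel_right]

lemma const_of_center {u : A →* O} {n : ℕ} {a : Fin n → A}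
    (h : dg u n a ∈ Subgroup.center (Matrix (Fin n) (Fin n) O)ˣ) (i j : Fin n) :
    u (a i) = u (a j) := by
  by_cases hij : i = j
  · rw [hij]
  rw [Subgroup.mem_center_iff] at h
  have h1 := congrArg Units.val (h (trans hij))
  rw [Units.val_mul, Units.val_mul, dg_coe] at h1
  have h2 : ((trans hij : (Matrix (Fin n) (Fin n) O)ˣ) : Matrix (Fin n) (Fin n) O) =
    1 + single i j 1 := rfl
  rw [h2, add_mul, mul_add, one_mul, mul_one, add_right_inj] at h1
  have h3 := congrFun (congrFun h1 i) j
  rw [Matrix.mul_diagonal, Matrix.diagonal_mul, Matrix.single_apply_same, one_mul, mul_one] at h3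
  exact h3.symm

/-- the scalar matrix of a unit -/
def scal (n : ℕ) : Oˣ →* (Matrix (Fin n) (Fin n) O)ˣ :=
  MonoidHom.toHomUnits
    { toFun := fun b => diagonal (fun _ => (b : O))
      map_one' := by
        show diagonal (fun _ : Fin n => ((1 : Oˣ) : O)) = 1
        simp only [Units.val_one]
        exact diagonal_one
      map_mul' := fun p q => by
        show diagonal (fun _ => ((p * q : Oˣ) : O)) = diagonal (fun _ => (p : O)) *
          diagonal (fun _ => (q : O))
        rw [diagonal_mul_diagonal]
        simp only [Units.val_mul] }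

lemma comm_of_center {u : A →* O} {n : ℕ} {a : Fin n → A}
    (h : dg u n a ∈ Subgroup.center (Matrix (Fin n) (Fin n) O)ˣ) (i : Fin n) (b : Oˣ) :
    (b : O) * u (a i) = u (a i) * b := by
  rw [Subgroup.mem_center_iff] at h
  have h1 := congrArg Units.val (h (scal n b))
  rw [Units.val_mul, Units.val_mul, dg_coe] at h1
  have h2 : ((scal n b : (Matrix (Fin n) (Fin n) O)ˣ) : Matrix (Fin n) (Fin n) O) =
    diagonal (fun _ => (b : O)) := rfl
  rw [h2, diagonal_mul_diagonal, diagonal_mul_diagonal] at h1
  have h3 := congrFun (congrFun h1 i) i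
  rw [diagonal_apply_eq, diagonal_apply_eq] at h3
  exact h3

end units

section detone

variable {A : Type} [CommGroup A]

/-- the vectors of product one -/
def D1 (A : Type) [CommGroup A] (n : ℕ) : Subgroup (Fin n → A) where
  carrier := {a | ∏ i, a i = 1}
  one_mem' := by simp
  mul_mem' := fun {a b} ha hb => by
    show ∏ i, (a * b) i = 1
    have ha' : ∏ i, a i = 1 := ha
    have hb' : ∏ i, b i = 1 := hb
    simp only [Pi.mul_apply, Finset.prod_mul_distrib, ha', hb', one_mul]
  inv_mem' := fun {a} ha => by
    show ∏ i, a⁻¹ i = 1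
    have ha' : ∏ i, a i = 1 := ha
    simp only [Pi.inv_apply, Finset.prod_inv_distrib, ha', inv_one]

lemma card_D1 [Finite A] {n : ℕ} (hn : 1 ≤ n) : Nat.card (D1 A n) = Nat.card A ^ (n - 1) := by
  obtain ⟨k, rfl⟩ : ∃ k, n = k + 1 := ⟨n - 1, by omega⟩
  let e : (Fin k → A) ≃ D1 A (k + 1) :=
    { toFun := fun a => ⟨uv a, by
        show ∏ i, uv a i = 1
        rw [Fin.prod_univ_succ]
        unfold uv
        simp⟩
      invFun := fun b i => (b : Fin (k + 1) → A) i.succ
      left_inv := fun a => by
        funext i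
        simp [uv]
      right_inv := fun b => by
        apply Subtype.ext
        funext i
        refine Fin.cases ?_ (fun i => ?_) i
        · have h1 : ∏ i, (b : Fin (k + 1) → A) i = 1 := b.2
          rw [Fin.prod_univ_succ] at h1
          simp only [uv, Fin.cons_zero]
          exact (eq_inv_of_mul_eq_one_left h1).symm
        · simp [uv] }
  rw [← Nat.card_congr e, Nat.card_fun]
  simp

lemma card_const [Finite A] [IsCyclic A] {n : ℕ} (hn : 1 ≤ n) (K : Subgroup (D1 A n))
    (hK : ∀ a ∈ K, ∀ i j, (a : Fin n → A) i = (a : Fin n → A) j) :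
    Nat.card K ∣ Nat.gcd n (Nat.card A) := by
  let i0 : Fin n := ⟨0, by omega⟩
  let ev : K →* A := ((Pi.evalMonoidHom _ i0).comp (D1 A n).subtype).comp K.subtype
  have hev : ∀ a : K, ev a = ((a : D1 A n) : Fin n → A) i0 := fun _ => rfl
  have hinj : Function.Injective ev := by
    intro p q hpq
    rw [hev, hev] at hpq
    apply Subtype.ext
    apply Subtype.ext
    funext j
    rw [hK _ p.2 j i0, hK _ q.2 j i0]
    exact hpq
  have h4 : Nat.card K ∣ Nat.card A := Subgroup.card_dvd_of_injective ev hinj
  have hc : IsCyclic K := isCyclic_of_injective ev hinj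
  have hk1 : Nat.card K ∣ n := by
    rw [← IsCyclic.exponent_eq_card]
    apply Monoid.exponent_dvd_of_forall_pow_eq_one
    intro p
    apply hinj
    rw [map_one, map_pow, hev]
    have h1 : ∏ i, ((p : D1 A n) : Fin n → A) i = 1 := (p : D1 A n).2
    rw [Finset.prod_congr rfl (fun j _ => hK _ p.2 j i0), Finset.prod_const, Finset.card_univ,
      Fintype.card_fin] at h1
    exact h1
  exact Nat.dvd_gcd hk1 h4

end detone

end Pool.Agent.E8helper72.ZO
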