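import Pool.Agent.E8helper72.ZO.Diag

/-!
# The four families
-/

set_option autoImplicit false

namespace Pool.Agent.E8helper72.ZO

open Pool.Agent.H185.ZM Module Matrix
open scoped Manifold ContDiff

/-- The orthogonal group `SO(f; R)` of the diagonal quadratic form `∑ f_i x_i ^ 2`: the matrices
`g` of determinant one with `gᵀ diag(f) g = diag(f)` such that the entries of `g` and `g⁻¹` are in
the subring `R` of `F`. -/
def SOG {F : Type} [CommRing F] (R : Subring F) {n : ℕ} (f : Fin n → F) :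
    Subgroup (Matrix (Fin n) (Fin n) F)ˣ where
  carrier := {g | ((∀ i j, (g : Matrix (Fin n) (Fin n) F) i j ∈ R) ∧
    ∀ i j, ((g⁻¹ : (Matrix (Fin n) (Fin n) F)ˣ) : Matrix (Fin n) (Fin n) F) i j ∈ R) ∧
    (g : Matrix (Fin n) (Fin n) F)ᵀ * diagonal f * (g : Matrix (Fin n) (Fin n) F) = diagonal f ∧
    (g : Matrix (Fin n) (Fin n) F).det = 1}
  one_mem' := by
    refine ⟨⟨fun i j => ?_, fun i j => ?_⟩, ?_, ?_⟩
    · rw [Units.val_one, one_apply]
      split_ifs
      · exact R.one_mem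
      · exact R.zero_mem
    · rw [inv_one, Units.val_one, one_apply]
      split_ifs
      · exact R.one_mem
      · exact R.zero_mem
    · simp
    · simp
  mul_mem' := by
    rintro a b ⟨⟨ha1, ha2⟩, ha3, ha4⟩ ⟨⟨hb1, hb2⟩, hb3, hb4⟩
    refine ⟨⟨fun i j => ?_, fun i j => ?_⟩, ?_, ?_⟩
    · rw [Units.val_mul, mul_apply]
      exact R.sum_mem fun l _ => R.mul_mem (ha1 _ _) (hb1 _ _)
    · rw [_root_.mul_inv_rev, Units.val_mul, mul_apply]
      exact R.sum_mem fun l _ => R.mul_mem (hb2 _ _) (ha2 _ _)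
    · rw [Units.val_mul, transpose_mul]
      calc (b : Matrix (Fin n) (Fin n) F)ᵀ * (a : Matrix (Fin n) (Fin n) F)ᵀ * diagonal f *
            ((a : Matrix (Fin n) (Fin n) F) * (b : Matrix (Fin n) (Fin n) F))
          = (b : Matrix (Fin n) (Fin n) F)ᵀ * ((a : Matrix (Fin n) (Fin n) F)ᵀ * diagonal f *
            (a : Matrix (Fin n) (Fin n) F)) * (b : Matrix (Fin n) (Fin n) F) := by
              simp only [Matrix.mul_assoc]
        _ = diagonal f := by rw [ha3, hb3]
    · rw [Units.val_mul, det_mul, ha4, hb4, one_mul]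
  inv_mem' := by
    rintro a ⟨⟨ha1, ha2⟩, ha3, ha4⟩
    refine ⟨⟨ha2, by rwa [inv_inv]⟩, ?_, ?_⟩
    · have h1 : (a : Matrix (Fin n) (Fin n) F) *
          ((a⁻¹ : (Matrix (Fin n) (Fin n) F)ˣ) : Matrix (Fin n) (Fin n) F) = 1 := a.mul_inv
      have h2 : ((a⁻¹ : (Matrix (Fin n) (Fin n) F)ˣ) : Matrix (Fin n) (Fin n) F)ᵀ *
          (a : Matrix (Fin n) (Fin n) F)ᵀ = 1 := by
        rw [← transpose_mul, h1, transpose_one]
      calc ((a⁻¹ : (Matrix (Fin n) (Fin n) F)ˣ) : Matrix (Fin n) (Fin n) F)ᵀ * diagonal f *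
            ((a⁻¹ : (Matrix (Fin n) (Fin n) F)ˣ) : Matrix (Fin n) (Fin n) F)
          = ((a⁻¹ : (Matrix (Fin n) (Fin n) F)ˣ) : Matrix (Fin n) (Fin n) F)ᵀ *
            ((a : Matrix (Fin n) (Fin n) F)ᵀ * diagonal f * (a : Matrix (Fin n) (Fin n) F)) *
            ((a⁻¹ : (Matrix (Fin n) (Fin n) F)ˣ) : Matrix (Fin n) (Fin n) F) := by rw [ha3]
        _ = (((a⁻¹ : (Matrix (Fin n) (Fin n) F)ˣ) : Matrix (Fin n) (Fin n) F)ᵀ *
            (a : Matrix (Fin n) (Fin n) F)ᵀ) * diagonal f * ((a : Matrix (Fin n) (Fin n) F) *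
            ((a⁻¹ : (Matrix (Fin n) (Fin n) F)ˣ) : Matrix (Fin n) (Fin n) F)) := by
              simp only [Matrix.mul_assoc]
        _ = diagonal f := by rw [h1, h2, Matrix.one_mul, Matrix.mul_one]
    · have h1 : (a : Matrix (Fin n) (Fin n) F) *
          ((a⁻¹ : (Matrix (Fin n) (Fin n) F)ˣ) : Matrix (Fin n) (Fin n) F) = 1 := a.mul_inv
      have h2 := congrArg Matrix.det h1
      rw [det_mul, ha4, one_mul, det_one] at h2
      exact h2

/-- The unitary group `U(h; R)` of the diagonal (hermitian or skew-hermitian) form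
`∑ x_i* h_i y_i`: the matrices `g` with `g* diag(h) g = diag(h)` such that the entries of `g` and
`g⁻¹` are in the subring `R` of the ring `O` with involution. -/
def UG {O : Type} [Ring O] [StarRing O] (R : Subring O) {n : ℕ} (h : Fin n → O) :
    Subgroup (Matrix (Fin n) (Fin n) O)ˣ where
  carrier := {g | ((∀ i j, (g : Matrix (Fin n) (Fin n) O) i j ∈ R) ∧
    ∀ i j, ((g⁻¹ : (Matrix (Fin n) (Fin n) O)ˣ) : Matrix (Fin n) (Fin n) O) i j ∈ R) ∧
    (g : Matrix (Fin n) (Fin n) O)ᴴ * diagonal h * (g : Matrix (Fin n) (Fin n) O) = diagonal h}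
  one_mem' := by
    refine ⟨⟨fun i j => ?_, fun i j => ?_⟩, ?_⟩
    · rw [Units.val_one, one_apply]
      split_ifs
      · exact R.one_mem
      · exact R.zero_mem
    · rw [inv_one, Units.val_one, one_apply]
      split_ifs
      · exact R.one_mem
      · exact R.zero_mem
    · simp
  mul_mem' := by
    rintro a b ⟨⟨ha1, ha2⟩, ha3⟩ ⟨⟨hb1, hb2⟩, hb3⟩
    refine ⟨⟨fun i j => ?_, fun i j => ?_⟩, ?_⟩
    · rw [Units.val_mul, mul_apply]
      exact R.sum_mem fun l _ => R.mul_mem (ha1 _ _) (hb1 _ _)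
    · rw [_root_.mul_inv_rev, Units.val_mul, mul_apply]
      exact R.sum_mem fun l _ => R.mul_mem (hb2 _ _) (ha2 _ _)
    · rw [Units.val_mul, conjTranspose_mul]
      calc (b : Matrix (Fin n) (Fin n) O)ᴴ * (a : Matrix (Fin n) (Fin n) O)ᴴ * diagonal h *
            ((a : Matrix (Fin n) (Fin n) O) * (b : Matrix (Fin n) (Fin n) O))
          = (b : Matrix (Fin n) (Fin n) O)ᴴ * ((a : Matrix (Fin n) (Fin n) O)ᴴ * diagonal h *
            (a : Matrix (Fin n) (Fin n) O)) * (b : Matrix (Fin n) (Fin n) O) := by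
              simp only [Matrix.mul_assoc]
        _ = diagonal h := by rw [ha3, hb3]
  inv_mem' := by
    rintro a ⟨⟨ha1, ha2⟩, ha3⟩
    refine ⟨⟨ha2, by rwa [inv_inv]⟩, ?_⟩
    have h1 : (a : Matrix (Fin n) (Fin n) O) *
        ((a⁻¹ : (Matrix (Fin n) (Fin n) O)ˣ) : Matrix (Fin n) (Fin n) O) = 1 := a.mul_inv
    have h2 : ((a⁻¹ : (Matrix (Fin n) (Fin n) O)ˣ) : Matrix (Fin n) (Fin n) O)ᴴ *
        (a : Matrix (Fin n) (Fin n) O)ᴴ = 1 := by
      rw [← conjTranspose_mul, h1, conjTranspose_one]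
    calc ((a⁻¹ : (Matrix (Fin n) (Fin n) O)ˣ) : Matrix (Fin n) (Fin n) O)ᴴ * diagonal h *
          ((a⁻¹ : (Matrix (Fin n) (Fin n) O)ˣ) : Matrix (Fin n) (Fin n) O)
        = ((a⁻¹ : (Matrix (Fin n) (Fin n) O)ˣ) : Matrix (Fin n) (Fin n) O)ᴴ *
          ((a : Matrix (Fin n) (Fin n) O)ᴴ * diagonal h * (a : Matrix (Fin n) (Fin n) O)) *
          ((a⁻¹ : (Matrix (Fin n) (Fin n) O)ˣ) : Matrix (Fin n) (Fin n) O) := by rw [ha3]
      _ = (((a⁻¹ : (Matrix (Fin n) (Fin n) O)ˣ) : Matrix (Fin n) (Fin n) O)ᴴ *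
          (a : Matrix (Fin n) (Fin n) O)ᴴ) * diagonal h * ((a : Matrix (Fin n) (Fin n) O) *
          ((a⁻¹ : (Matrix (Fin n) (Fin n) O)ˣ) : Matrix (Fin n) (Fin n) O)) := by
            simp only [Matrix.mul_assoc]
      _ = diagonal h := by rw [h1, h2, Matrix.one_mul, Matrix.mul_one]

/-- The special unitary group `SU(h; R)`, the elements of determinant one of `U(h; R)`, for a
commutative ring with involution. -/
def SUG {F : Type} [CommRing F] [StarRing F] (R : Subring F) {n : ℕ} (h : Fin n → F) :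
    Subgroup (Matrix (Fin n) (Fin n) F)ˣ where
  carrier := {g | g ∈ UG R h ∧ (g : Matrix (Fin n) (Fin n) F).det = 1}
  one_mem' := ⟨(UG R h).one_mem, by simp⟩
  mul_mem' := by
    rintro a b ⟨ha1, ha2⟩ ⟨hb1, hb2⟩
    refine ⟨(UG R h).mul_mem ha1 hb1, ?_⟩
    rw [Units.val_mul, det_mul, ha2, hb2, one_mul]
  inv_mem' := by
    rintro a ⟨ha1, ha2⟩
    refine ⟨(UG R h).inv_mem ha1, ?_⟩
    have h1 : (a : Matrix (Fin n) (Fin n) F) *
          ((a⁻¹ : (Matrix (Fin n) (Fin n) F)ˣ) : Matrix (Fin n) (Fin n) F) = 1 := a.mul_inv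
    have h2 := congrArg Matrix.det h1
    rw [det_mul, ha2, one_mul, det_one] at h2
    exact h2

section mem

variable {k : ℕ} [NeZero k]

lemma diag_mem {O : Type} [Ring O] (R : Subring O) {n : ℕ} {d : Fin n → O} (hd : ∀ i, d i ∈ R)
    (i j : Fin n) : diagonal d i j ∈ R := by
  rw [diagonal_apply]
  split_ifs
  · exact hd i
  · exact R.zero_mem

lemma pw_mem {O : Type} [Ring O] (R : Subring O) {z : O} (hzR : z ∈ R) (hz : z ^ k = 1)
    (x : Multiplicative (ZMod k)) : pw z k hz x ∈ R := R.pow_mem hzR _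

lemma dg_mem_UG {O : Type} [Ring O] [StarRing O] (R : Subring O) {n : ℕ} {h : Fin n → O} {z : O}
    (hzR : z ∈ R) (hz : z ^ k = 1) (hzh : ∀ i, star z * h i * z = h i)
    (a : Fin n → Multiplicative (ZMod k)) : dg (pw z k hz) n a ∈ UG R h := by
  refine ⟨⟨fun i j => ?_, fun i j => ?_⟩, ?_⟩
  · rw [dg_coe]
    exact diag_mem R (fun i => pw_mem R hzR hz _) i j
  · rw [dg_inv_coe]
    exact diag_mem R (fun i => pw_mem R hzR hz _) i j
  · rw [dg_coe, diagonal_conjTranspose, diagonal_mul_diagonal, diagonal_mul_diagonal]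
    congr 1
    funext i
    have key : ∀ m : ℕ, star (z ^ m) * h i * z ^ m = h i := by
      intro m
      induction m with
      | zero => simp
      | succ m ih =>
        calc star (z ^ (m + 1)) * h i * z ^ (m + 1)
            = star (z ^ m) * (star z * h i * z) * z ^ m := by
              rw [pow_succ' z m, star_mul]
              simp only [mul_assoc]
          _ = h i := by rw [hzh, ih]
    exact key _

lemma det_dg {F : Type} [CommRing F] {n : ℕ} {z : F} (hz : z ^ k = 1)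
    (a : D1 (Multiplicative (ZMod k)) n) :
    ((dg (pw z k hz) n (a : Fin n → Multiplicative (ZMod k)) :
      (Matrix (Fin n) (Fin n) F)ˣ) : Matrix (Fin n) (Fin n) F).det = 1 := by
  rw [dg_coe, det_diagonal, ← map_prod]
  have h1 : ∏ i, (a : Fin n → Multiplicative (ZMod k)) i = 1 := a.2
  rw [h1, map_one]

lemma dg_mem_SUG {F : Type} [CommRing F] [StarRing F] (R : Subring F) {n : ℕ} {h : Fin n → F}
    {z : F} (hzR : z ∈ R) (hz : z ^ k = 1) (hzs : star z * z = 1)
    (a : D1 (Multiplicative (ZMod k)) n) :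
    dg (pw z k hz) n (a : Fin n → Multiplicative (ZMod k)) ∈ SUG R h :=
  ⟨dg_mem_UG R hzR hz (fun i => by rw [mul_right_comm, hzs, one_mul]) _, det_dg hz a⟩

lemma dg_mem_SOG {F : Type} [CommRing F] (R : Subring F) {n : ℕ} {f : Fin n → F}
    {z : F} (hzR : z ∈ R) (hz : z ^ 2 = 1) (a : D1 (Multiplicative (ZMod 2)) n) :
    dg (pw z 2 hz) n (a : Fin n → Multiplicative (ZMod 2)) ∈ SOG R f := by
  refine ⟨⟨fun i j => ?_, fun i j => ?_⟩, ?_, det_dg hz a⟩
  · rw [dg_coe]
    exact diag_mem R (fun i => pw_mem R hzR hz _) i j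
  · rw [dg_inv_coe]
    exact diag_mem R (fun i => pw_mem R hzR hz _) i j
  · rw [dg_coe, diagonal_transpose, diagonal_mul_diagonal, diagonal_mul_diagonal]
    congr 1
    funext i
    have h1 : pw z 2 hz ((a : Fin n → Multiplicative (ZMod 2)) i) *
        pw z 2 hz ((a : Fin n → Multiplicative (ZMod 2)) i) = 1 := by
      rw [← map_mul]
      have : ∀ x : Multiplicative (ZMod 2), x * x = 1 := by decide
      rw [this, map_one]
    rw [mul_right_comm, h1, one_mul]

end mem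

end Pool.Agent.E8helper72.ZO
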